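import Pool.Agent.Y476.NA.Stm

/-!
Null-additive sets: the upper limit of the periodic sets is a null set, and the sets are open.
-/

set_option autoImplicit false

namespace Pool.Agent.Y641.NA

open MeasureTheory Filter Set
open Pool.Agent.Y476.NA

theorem Hs_eq (D : ℕ) (J : Set ℤ) :
    Hs D J = ⋃ n ∈ J, {z : ℝ | (n : ℝ) < z * D ∧ z * D < (n : ℝ) + 1} := by
  ext z
  simp only [Set.mem_iUnion, Set.mem_ofPred_eq, exists_prop]
  constructor
  · rintro ⟨h1, h2⟩
    refine ⟨⌊z * D⌋, h2, lt_of_le_of_ne (Int.floor_le _) (fun h => h1 _ h.symm),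
      Int.lt_floor_add_one _⟩
  · rintro ⟨n, hn, h1, h2⟩
    have hfl : ⌊z * D⌋ = n := Int.floor_eq_iff.2 ⟨h1.le, h2⟩
    refine ⟨fun k hk => ?_, by rw [hfl]; exact hn⟩
    rw [hk] at h1 h2
    have h3 : n < k := by exact_mod_cast h1
    have h4 : k < n + 1 := by exact_mod_cast h2
    omega

/-- `OP` -/
theorem op : S_OP := by
  intro D J _
  rw [Hs_eq]
  refine isOpen_biUnion fun n _ => ?_
  exact (isOpen_lt continuous_const (continuous_id.mul continuous_const)).inter
    (isOpen_lt (continuous_id.mul continuous_const) continuous_const)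

/-- periodicity, for multiples of the period -/
theorem per_mul {b : ℕ} {J : Set ℤ} (h : Per b J) (k : ℤ) : ∀ I : ℤ, I + b * k ∈ J ↔ I ∈ J := by
  induction k using Int.induction_on with
  | zero =>
    intro I
    rw [mul_zero, add_zero]
  | succ n ih =>
    intro I
    have e : I + b * ((n : ℤ) + 1) = (I + b * n) + b := by ring
    rw [e, h, ih]
  | pred n ih =>
    intro I
    have h1 := h (I + b * (-(n : ℤ) - 1))
    have e : I + b * (-(n : ℤ) - 1) + b = I + b * (-(n : ℤ)) := by ring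
    rw [e, ih] at h1
    exact h1.symm

/-- the number of elements of `J` in `2 N` periods -/
theorem count {b m : ℕ} (hb : 0 < b) {J : Set ℤ} (hp : Per b J) (hs : Sml b m J) (N : ℕ)
    (S : Finset ℤ) (hS : ∀ I ∈ S, I ∈ J ∧ -(N * b : ℤ) ≤ I ∧ I < N * b) :
    m * S.card ≤ 2 * N * b := by
  classical
  have hb' : (0 : ℤ) < b := by exact_mod_cast hb
  set J0 : Finset ℤ := (Finset.Ico (0 : ℤ) b).filter (fun I => I ∈ J) with hJ0
  have hJ0c : {I : ℤ | 0 ≤ I ∧ I < b ∧ I ∈ J}.ncard = J0.card := by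
    rw [← Set.ncard_coe_finset]
    congr 1
    ext I
    simp only [hJ0, Finset.coe_filter, Finset.mem_Ico, Set.mem_ofPred_eq, and_assoc]
  have hs' : m * J0.card ≤ b := by
    rw [← hJ0c]
    exact hs
  have hcard : S.card ≤ (Finset.Ico (-(N : ℤ)) N ×ˢ J0).card := by
    refine Finset.card_le_card_of_injOn (fun I => (I / b, I % b)) ?_ ?_
    · intro I hI
      obtain ⟨h1, h2, h3⟩ := hS I hI
      simp only [Finset.coe_product, Set.mem_prod, Finset.mem_coe, Finset.mem_Ico, hJ0,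
        Finset.mem_filter]
      refine ⟨⟨?_, ?_⟩, ⟨Int.emod_nonneg _ hb'.ne', Int.emod_lt_of_pos _ hb'⟩, ?_⟩
      · rw [Int.le_ediv_iff_mul_le hb']
        linarith
      · rw [Int.ediv_lt_iff_lt_mul hb']
        linarith
      · rw [← per_mul hp (I / b), Int.emod_add_mul_ediv]
        exact h1
    · intro I _ I' _ h
      simp only [Prod.mk.injEq] at h
      rw [← Int.emod_add_mul_ediv I b, ← Int.emod_add_mul_ediv I' b, h.1, h.2]
  rw [Finset.card_product, Int.card_Ico] at hcard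
  have e : ((N : ℤ) - -(N : ℤ)).toNat = 2 * N := by omega
  rw [e] at hcard
  calc m * S.card ≤ m * (2 * N * J0.card) := Nat.mul_le_mul_left _ hcard
    _ = 2 * N * (m * J0.card) := by ring
    _ ≤ 2 * N * b := Nat.mul_le_mul_left _ hs'

/-- the measure in an interval -/
theorem meas {D b m : ℕ} (hD : 0 < D) (hb : 0 < b) (hm : 0 < m) {J : Set ℤ} (hp : Per b J)
    (hs : Sml b m J) (n : ℕ) :
    volume {z : ℝ | z ∈ Ico (-(n : ℝ)) n ∧ z ∈ Hs (D * b) J} ≤ ENNReal.ofReal (2 * n / m) := by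
  classical
  set D' : ℝ := ((D * b : ℕ) : ℝ) with hD'
  have hD'0 : 0 < D' := by
    rw [hD']
    exact_mod_cast Nat.mul_pos hD hb
  set S : Finset ℤ := (Finset.Ico (-((n * D : ℕ) * b : ℤ)) ((n * D : ℕ) * b)).filter
    (fun I => I ∈ J) with hS
  have hcount : m * S.card ≤ 2 * (n * D) * b := by
    refine count hb hp hs (n * D) S fun I hI => ?_
    rw [hS, Finset.mem_filter, Finset.mem_Ico] at hI
    exact ⟨hI.2, hI.1.1, hI.1.2⟩
  have hsub : {z : ℝ | z ∈ Ico (-(n : ℝ)) n ∧ z ∈ Hs (D * b) J} ⊆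
      ⋃ I ∈ S, Ico ((I : ℝ) / D') (((I : ℝ) + 1) / D') := by
    rintro z ⟨⟨h1, h2⟩, -, h3⟩
    simp only [Set.mem_iUnion]
    refine ⟨⌊z * D'⌋, ?_, ?_⟩
    · rw [hS, Finset.mem_filter, Finset.mem_Ico]
      refine ⟨⟨?_, ?_⟩, h3⟩
      · rw [Int.le_floor]
        push_cast
        have h4 : -(n : ℝ) * D' ≤ z * D' := mul_le_mul_of_nonneg_right h1 hD'0.le
        have h5 : -(n : ℝ) * D' = -((n : ℝ) * D * b) := by
          rw [hD']
          push_cast
          ring
        linarith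
      · rw [Int.floor_lt]
        push_cast
        have h4 : z * D' < (n : ℝ) * D' := mul_lt_mul_of_pos_right h2 hD'0
        have h5 : (n : ℝ) * D' = (n : ℝ) * D * b := by
          rw [hD']
          push_cast
          ring
        linarith
    · rw [Set.mem_Ico, div_le_iff₀ hD'0, lt_div_iff₀ hD'0]
      exact ⟨Int.floor_le _, Int.lt_floor_add_one _⟩
  calc volume {z : ℝ | z ∈ Ico (-(n : ℝ)) n ∧ z ∈ Hs (D * b) J}
      ≤ volume (⋃ I ∈ S, Ico ((I : ℝ) / D') (((I : ℝ) + 1) / D')) := measure_mono hsub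
    _ ≤ ∑ I ∈ S, volume (Ico ((I : ℝ) / D') (((I : ℝ) + 1) / D')) :=
        measure_biUnion_finset_le _ _
    _ = ∑ _I ∈ S, ENNReal.ofReal (1 / D') := by
        refine Finset.sum_congr rfl fun I _ => ?_
        rw [Real.volume_Ico]
        congr 1
        ring
    _ = ENNReal.ofReal (S.card * (1 / D')) := by
        rw [Finset.sum_const, nsmul_eq_mul, ENNReal.ofReal_mul (Nat.cast_nonneg _),
          ENNReal.ofReal_natCast]
    _ ≤ ENNReal.ofReal (2 * n / m) := by
        apply ENNReal.ofReal_le_ofReal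
        have hm' : (0 : ℝ) < m := by exact_mod_cast hm
        rw [mul_one_div, div_le_div_iff₀ hD'0 hm']
        have h6 : ((m * S.card : ℕ) : ℝ) ≤ ((2 * (n * D) * b : ℕ) : ℝ) := by
          exact_mod_cast hcount
        push_cast at h6
        rw [hD']
        push_cast
        linarith

/-- `HN` -/
theorem t : S_HN := by
  intro D b m J hD hb hm hDb hp hs hsum
  have key : ∀ n : ℕ, volume {z : ℝ | ∃ᶠ k in atTop,
      z ∈ Ico (-(n : ℝ)) n ∧ z ∈ Hs (D (k + 1)) (J k)} = 0 := by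
    intro n
    refine measure_setOfPred_frequently_eq_zero ?_
    have h1 : Summable fun k => (2 * n : ℝ) / (m k : ℝ) := by
      have h2 := hsum.mul_left (2 * n : ℝ)
      refine h2.congr fun k => ?_
      rw [mul_one_div]
    refine ne_top_of_le_ne_top h1.tsum_ofReal_ne_top ?_
    refine ENNReal.tsum_le_tsum fun k => ?_
    rw [hDb]
    exact meas (hD k) (hb k) (hm k) (hp k) (hs k) n
  refine measure_mono_null ?_ (measure_iUnion_null key)
  intro z hz
  obtain ⟨n, hn⟩ := exists_nat_gt |z|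
  rw [Set.mem_iUnion]
  refine ⟨n, ?_⟩
  have hz' : ∃ᶠ k in atTop, z ∈ Hs (D (k + 1)) (J k) := hz
  show ∃ᶠ k in atTop, z ∈ Ico (-(n : ℝ)) n ∧ z ∈ Hs (D (k + 1)) (J k)
  refine hz'.mono fun k hk => ⟨?_, hk⟩
  rw [abs_lt] at hn
  exact ⟨hn.1.le, hn.2⟩

end Pool.Agent.Y641.NA
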